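import Pool.Agent.Y643.C6.Odd

set_option autoImplicit false

/-!
# The ratio `c_{6,k} / d_{6,k}` stays away from `1` for all large odd `k`

For every `η < 2^(5/3) / 3 = 1.0582...` and all large odd `k` (the starting result: `η = 21/20` and
`k = q ^ 3` for large primes `q`). The lower bound for `c_{6,k}`: a bipartite graph has no cycle of
length `6 + k` if `k` is odd, and none of length `6 + 2 k` or more if one of its sides has at most `k`
vertices; the generalised quadrangle over a field with `q` elements, `q ^ 3 ≤ k`, with all points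
doubled, has no cycle of length `6` and average degree `4 q / 3`. By the prime number theorem `q`
may be a prime with `q = (1 + o(1)) k^(1/3)`. The upper bound for `d_{6,k}` is
`(2^(1/3) + o(1)) k^(1/3)`.
-/

open Filter Topology
open scoped ENNReal

namespace Pool.Agent.Results.MP_84a9df_co.RatioOddModuli

/-- The graph `G` contains a cycle whose length is congruent to `l` modulo `k`. -/
def HasCycleMod {n : ℕ} (G : SimpleGraph (Fin n)) (l k : ℕ) : Prop :=
  ∃ (v : Fin n) (p : G.Walk v v), p.IsCycle ∧ p.length ≡ l [MOD k]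

/-- For every `n ≥ 1`, every graph on `n` vertices with average degree at least `c`, that is, with at
least `c n / 2` edges, contains a cycle of length `l` modulo `k`. -/
def Forces (l k : ℕ) (c : ℝ) : Prop :=
  ∀ n : ℕ, 1 ≤ n → ∀ G : SimpleGraph (Fin n), c * n / 2 ≤ (G.edgeSet.ncard : ℝ) → HasCycleMod G l k

/-- `c_{l,k}`: the least real constant with `Forces l k`, as an infimum in `[0, ∞]`
(all such constants are positive, see `Forces.pos`). -/
noncomputable def cConst (l k : ℕ) : ℝ≥0∞ := sInf {x | ∃ c : ℝ, Forces l k c ∧ x = ENNReal.ofReal c}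

/-- `d_{l,k}`: the maximum average degree of a graph on exactly `k` vertices containing no cycle of
length exactly `l`. -/
noncomputable def dConst (l k : ℕ) : ℝ :=
  sSup {x | ∃ H : SimpleGraph (Fin k), (¬ ∃ (v : Fin k) (p : H.Walk v v), p.IsCycle ∧ p.length = l) ∧
    x = 2 * (H.edgeSet.ncard : ℝ) / k}

theorem Forces.pos {l k : ℕ} {c : ℝ} (h : Forces l k c) : 0 < c := by
  by_contra hc
  push Not at hc
  obtain ⟨v, p, hp, -⟩ := h 1 le_rfl ⊥ (by
    have : (0 : ℝ) ≤ ((⊥ : SimpleGraph (Fin 1)).edgeSet.ncard : ℝ) := by positivity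
    push_cast
    linarith)
  have h3 := hp.three_le_length
  have hadj := p.adj_getVert_succ (i := 0) (by omega)
  simp at hadj

lemma d_set_finite (l k : ℕ) :
    {x : ℝ | ∃ H : SimpleGraph (Fin k),
      (¬ ∃ (v : Fin k) (p : H.Walk v v), p.IsCycle ∧ p.length = l) ∧
      x = 2 * (H.edgeSet.ncard : ℝ) / k}.Finite := by
  refine (Set.finite_range fun H : SimpleGraph (Fin k) => 2 * (H.edgeSet.ncard : ℝ) / k).subset ?_
  rintro x ⟨H, -, rfl⟩
  exact ⟨H, rfl⟩

lemma edge_mem (l k : ℕ) (hl : 3 ≤ l) (hk : 2 ≤ k) :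
    (2 : ℝ) / k ∈ {x : ℝ | ∃ H : SimpleGraph (Fin k),
      (¬ ∃ (v : Fin k) (p : H.Walk v v), p.IsCycle ∧ p.length = l) ∧
      x = 2 * (H.edgeSet.ncard : ℝ) / k} := by
  have hne : (⟨0, by omega⟩ : Fin k) ≠ ⟨1, by omega⟩ := by simp
  set e : Sym2 (Fin k) := s(⟨0, by omega⟩, ⟨1, by omega⟩) with he
  have hes : (SimpleGraph.fromEdgeSet {e}).edgeSet = {e} := by
    rw [SimpleGraph.edgeSet_fromEdgeSet]
    ext x
    simp only [Set.mem_sdiff, Set.mem_singleton_iff]
    constructor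
    · exact fun h => h.1
    · rintro rfl
      exact ⟨rfl, fun h => hne (Sym2.mk_isDiag_iff.1 h)⟩
  refine ⟨SimpleGraph.fromEdgeSet {e}, ?_, ?_⟩
  · rintro ⟨v, p, hp, hpl⟩
    have h1 : p.edges.Nodup := hp.edges_nodup
    have h2 : p.edges.length = l := by rw [SimpleGraph.Walk.length_edges, hpl]
    have h3 : ∀ x ∈ p.edges, x = e := by
      intro x hx
      have := p.edges_subset_edgeSet hx
      rw [hes] at this
      exact this
    rcases hh : p.edges with _ | ⟨a, _ | ⟨b, t⟩⟩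
    · rw [hh] at h2; simp at h2; omega
    · rw [hh] at h2; simp at h2; omega
    · rw [hh] at h1 h3
      have ha := h3 a (by simp)
      have hb := h3 b (by simp)
      rw [ha, hb] at h1
      simp at h1
  · rw [hes, Set.ncard_singleton]; norm_num

/-- `d_{l,k}` is a maximum. -/
theorem dConst_isGreatest (l k : ℕ) (hl : 3 ≤ l) (hk : 2 ≤ k) :
    IsGreatest {x : ℝ | ∃ H : SimpleGraph (Fin k),
      (¬ ∃ (v : Fin k) (p : H.Walk v v), p.IsCycle ∧ p.length = l) ∧
      x = 2 * (H.edgeSet.ncard : ℝ) / k} (dConst l k) :=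
  (d_set_finite l k).isCompact.isGreatest_sSup ⟨_, edge_mem l k hl hk⟩

/-- Every `η < 4 / (3 * 2^(1/3))` is a lower bound of the ratio for all large odd `k`. -/
theorem main (η : ℝ) (hη : η < 4 / (3 * (2 : ℝ) ^ (1 / 3 : ℝ))) : ∃ K : ℕ, ∀ k : ℕ, K ≤ k → Odd k →
    6 < k ∧ 0 < dConst 6 k ∧ ∀ c : ℝ, Forces 6 k c → η * dConst 6 k ≤ c := by
  obtain ⟨r, hr⟩ : ∃ r : ℝ, r = (2 : ℝ) ^ (1 / 3 : ℝ) := ⟨_, rfl⟩
  have hr0 : 0 < r := by rw [hr]; positivity
  have hr3 : r ^ 3 = 2 := by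
    rw [hr, ← Real.rpow_natCast, ← Real.rpow_mul (by norm_num)]
    norm_num
  rw [← hr] at hη
  have hr43 : r < 4 / 3 := by
    by_contra hcon
    push Not at hcon
    have : (4 / 3 : ℝ) ^ 3 ≤ r ^ 3 := pow_le_pow_left₀ (by norm_num) hcon 3
    rw [hr3] at this
    norm_num at this
  have h1r : 1 < 4 / (3 * r) := by
    rw [lt_div_iff₀ (by positivity)]
    linarith
  obtain ⟨e, he⟩ : ∃ e, e = max η 1 := ⟨_, rfl⟩
  have he1 : 1 ≤ e := by rw [he]; exact le_max_right _ _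
  have heη : η ≤ e := by rw [he]; exact le_max_left _ _
  have her : e < 4 / (3 * r) := by rw [he]; exact max_lt hη h1r
  have he0 : 0 < e := by linarith
  have her' : r < 4 / (3 * e) := by
    rw [lt_div_iff₀ (by positivity)] at her ⊢
    linarith
  obtain ⟨κ, hκr, hκe⟩ := exists_between her'
  have hκ0 : 0 < κ := hr0.trans hκr
  have hκ3 : 2 < κ ^ 3 := by
    rw [← hr3]
    exact pow_lt_pow_left₀ hκr hr0.le (by norm_num)
  have heκ : e * κ < 4 / 3 := by
    rw [lt_div_iff₀ (by positivity)] at hκe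
    linarith
  have heκ0 : 0 < e * κ := by positivity
  obtain ⟨δ, hδ⟩ : ∃ δ, δ = 4 / 3 / (e * κ) - 1 := ⟨_, rfl⟩
  have hδ0 : 0 < δ := by
    rw [hδ, sub_pos, lt_div_iff₀ heκ0]
    linarith
  have hδ1 : (1 + δ) * (e * κ) = 4 / 3 := by
    rw [hδ]
    field_simp
    ring
  obtain ⟨N, hN⟩ := Pool.Agent.H119R2.Kp.prime_between δ hδ0
  obtain ⟨K1, hK1⟩ := Y643.C6.upper_all hκ3 hκ0
  obtain ⟨M, hM⟩ := exists_nat_gt ((1 + δ) * N)
  refine ⟨K1 + M ^ 3 + 7, fun k hk hodd => ?_⟩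
  have hg := dConst_isGreatest 6 k (by norm_num) (by omega)
  have hd0 : 0 < dConst 6 k := by
    have h2 := hg.2 (edge_mem 6 k (by norm_num) (by omega))
    have h3 : (0 : ℝ) < 2 / (k : ℝ) := by
      have : (0 : ℝ) < (k : ℝ) := by exact_mod_cast (by omega : 0 < k)
      positivity
    exact lt_of_lt_of_le h3 h2
  refine ⟨by omega, hd0, fun c hc => ?_⟩
  obtain ⟨t, ht⟩ : ∃ t : ℝ, t = (k : ℝ) ^ (1 / 3 : ℝ) := ⟨_, rfl⟩
  have ht0 : 0 ≤ t := by rw [ht]; positivity
  have ht3 : t ^ 3 = k := by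
    rw [ht, ← Real.rpow_natCast, ← Real.rpow_mul (by positivity)]
    norm_num
  have htM : (M : ℝ) ≤ t := by
    have h1 : (M : ℝ) ^ 3 ≤ t ^ 3 := by
      rw [ht3]; exact_mod_cast (by omega : M ^ 3 ≤ k)
    exact le_of_pow_le_pow_left₀ (by norm_num) ht0 h1
  have hδp : 0 < 1 + δ := by linarith
  obtain ⟨p, hp, hp1, hp2⟩ := hN (t / (1 + δ)) (by
    rw [le_div_iff₀ hδp]
    linarith)
  have hp3 : (p : ℝ) < t := by
    rwa [mul_div_cancel₀ _ hδp.ne'] at hp2
  have hpk : p ^ 3 ≤ k := by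
    have h1 : (p : ℝ) ^ 3 ≤ t ^ 3 := pow_le_pow_left₀ (by positivity) hp3.le 3
    rw [ht3] at h1
    exact_mod_cast h1
  have hlow := Y643.C6.lower_odd hp hodd (by omega) hpk hc
  obtain ⟨H, hH, hHe⟩ := hg.1
  have hup := hK1 k (by omega) t ht0 ht3 H hH
  rw [← hHe] at hup
  have h1 : e * dConst 6 k ≤ e * (κ * t) := mul_le_mul_of_nonneg_left hup he0.le
  have h2 : η * dConst 6 k ≤ e * dConst 6 k := mul_le_mul_of_nonneg_right heη hd0.le
  have h3 : e * (κ * t) = 4 / 3 * (t / (1 + δ)) := by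
    rw [← hδ1]
    field_simp
  linarith

/-- **The ratio `c_{6,k} / d_{6,k}` is bounded away from `1` for all large odd `k`.** For every
`η < 4 / (3 * 2^(1/3)) = 2^(5/3) / 3 = 1.0582...` there is `K` such that for all odd `k ≥ K` every
constant `c` which forces a cycle of length `6` modulo `k` is at least `η d_{6,k}`. In particular
`c_{6,k} / d_{6,k}` does not tend to `1`, and it is not true that `c_{l,k} / d_{l,k} → 1` for all
even `l ≥ 4`. -/
theorem result :
    (∀ η : ℝ, η < 4 / (3 * (2 : ℝ) ^ (1 / 3 : ℝ)) → ∃ K : ℕ, ∀ k : ℕ, K ≤ k → Odd k →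
      6 < k ∧ 0 < dConst 6 k ∧ ∀ c : ℝ, Forces 6 k c → η * dConst 6 k ≤ c) ∧
    (21 / 20 : ℝ) < 4 / (3 * (2 : ℝ) ^ (1 / 3 : ℝ)) ∧
    ¬ Tendsto (fun k : ℕ => cConst 6 k / ENNReal.ofReal (dConst 6 k)) atTop (𝓝 1) ∧
    ¬ ∀ l : ℕ, Even l → 4 ≤ l →
      Tendsto (fun k : ℕ => cConst l k / ENNReal.ofReal (dConst l k)) atTop (𝓝 1) := by
  have h21 : (21 / 20 : ℝ) < 4 / (3 * (2 : ℝ) ^ (1 / 3 : ℝ)) := by
    obtain ⟨r, hr⟩ : ∃ r : ℝ, r = (2 : ℝ) ^ (1 / 3 : ℝ) := ⟨_, rfl⟩
    have hr0 : 0 < r := by rw [hr]; positivity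
    have hr3 : r ^ 3 = 2 := by
      rw [hr, ← Real.rpow_natCast, ← Real.rpow_mul (by norm_num)]
      norm_num
    rw [← hr, lt_div_iff₀ (by positivity)]
    by_contra hcon
    push Not at hcon
    have h1 : (80 / 63 : ℝ) ≤ r := by linarith
    have : (80 / 63 : ℝ) ^ 3 ≤ r ^ 3 := pow_le_pow_left₀ (by norm_num) h1 3
    rw [hr3] at this
    norm_num at this
  have h2 : ¬ Tendsto (fun k : ℕ => cConst 6 k / ENNReal.ofReal (dConst 6 k)) atTop (𝓝 1) := by
    intro hT
    have hlt : (1 : ℝ≥0∞) < ENNReal.ofReal (21 / 20) := by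
      rw [← ENNReal.ofReal_one]
      exact (ENNReal.ofReal_lt_ofReal_iff (by norm_num)).2 (by norm_num)
    have h3 := hT.eventually (gt_mem_nhds hlt)
    rw [eventually_atTop] at h3
    obtain ⟨K, hK⟩ := h3
    obtain ⟨K', hK'⟩ := main (21 / 20) h21
    obtain ⟨-, hd, hc⟩ := hK' (2 * (K + K') + 1) (by omega) ⟨K + K', rfl⟩
    have h4 := hK (2 * (K + K') + 1) (by omega)
    refine absurd h4 (not_lt.2 ?_)
    rw [ENNReal.le_div_iff_mul_le (Or.inl (by
      rw [Ne, ENNReal.ofReal_eq_zero]; exact not_le.2 hd)) (Or.inl ENNReal.ofReal_ne_top),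
      ← ENNReal.ofReal_mul (by norm_num)]
    refine le_sInf ?_
    rintro x ⟨c, hc', rfl⟩
    exact ENNReal.ofReal_le_ofReal (hc c hc')
  exact ⟨main, h21, h2, fun h => h2 (h 6 (by decide) (by norm_num))⟩

end Pool.Agent.Results.MP_84a9df_co.RatioOddModuli
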